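import Pool.Agent.Lib.H96G.Final
import Pool.Agent.Lib.H18GB2.DistL

/-!
# Project H59L (MP_443e5f_co): the sharp law of the distances

In both families of Goldbach graphs all but `n^(1-δ)` vertices `a` have the property that the distance to all but
`n^(1-δ)` vertices `b` is at most `typicalDist a b`; equality holds for all but `O(n^2/log n)` pairs, and this error is
sharp. Halved coordinates: `HL 1 n` of `H96G/Defs.lean`, `dd` of `H18GB2/DD.lean`.
-/

open Finset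

namespace Pool.Agent.Lib.H59L

open Pool.Agent.Goldbach
open Pool.Agent.Lib.H96G
open Pool.Agent.Lib.H18GB (dd)

open Classical in
/-- The pairs of the same type at distance larger than `2`. -/
noncomputable def stFar (n : ℕ) : Finset (ℕ × ℕ) :=
  (Icc 1 n ×ˢ Icc 1 n).filter fun p => ST p.1 p.2 ∧ ¬ (HL 1 n).edist p.1 p.2 ≤ 2

open Classical in
/-- The pairs of multiples of `3` of different parity, not both `± 2` modulo `5`, at distance larger than `3`. -/
noncomputable def ffFar (n : ℕ) : Finset (ℕ × ℕ) :=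
  (Icc 1 n ×ˢ Icc 1 n).filter fun p => 3 ∣ p.1 ∧ 3 ∣ p.2 ∧ p.1 % 2 ≠ p.2 % 2 ∧
    ¬ ((p.1 % 5 = 2 ∨ p.1 % 5 = 3) ∧ (p.2 % 5 = 2 ∨ p.2 % 5 = 3)) ∧ ¬ (HL 1 n).edist p.1 p.2 ≤ 3

open Classical in
/-- The pairs at distance larger than the typical one. -/
noncomputable def farP (n : ℕ) : Finset (ℕ × ℕ) :=
  (Icc 1 n ×ˢ Icc 1 n).filter fun p => ¬ (HL 1 n).edist p.1 p.2 ≤ (dd p.1 p.2 : ℕ∞)

open Classical in
/-- Some pairs which are closer than the typical distance. -/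
noncomputable def closeP (n : ℕ) : Finset (ℕ × ℕ) :=
  (Icc 1 n ×ˢ Icc 1 n).filter fun p => dd p.1 p.2 = 5 ∧ (HL 1 n).edist p.1 p.2 ≤ 3

/-- The typical distance of two vertices `a`, `b` of the Goldbach graphs. -/
def typicalDist (a b : ℕ) : ℕ :=
  if a % 4 = b % 4 then (if 3 ∣ a ↔ 3 ∣ b then 2 else 4)
  else if 3 ∣ a ∧ 3 ∣ b then
    (if (a % 5 = 1 ∨ a % 5 = 4) ∧ (b % 5 = 1 ∨ b % 5 = 4) then 5 else 3)
  else if 3 ∣ a ∨ 3 ∣ b then 3 else 5

theorem typicalDist_two_mul (x y : ℕ) : typicalDist (2 * x) (2 * y) = dd x y := by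
  have h3 : ∀ z : ℕ, 3 ∣ 2 * z ↔ z % 3 = 0 := by
    intro z
    omega
  have h5 : ∀ z : ℕ, (2 * z % 5 = 1 ∨ 2 * z % 5 = 4) ↔ (z % 5 = 2 ∨ z % 5 = 3) := by
    intro z
    omega
  have h4 : 2 * x % 4 = 2 * y % 4 ↔ x % 2 = y % 2 := by omega
  unfold typicalDist dd
  simp only [h3, h5, h4]
  split_ifs <;> first | rfl | (exfalso; tauto)

/-- The law of the distances for a graph `G` on a set `V` of even numbers up to `2 n`:
* `near`: for all but `n^(1-δ)` vertices `a`, the distance is at most `typicalDist a b` for all but `n^(1-δ)`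
  vertices `b`;
* `exact`: for all but `C n^2/log n` ordered pairs the distance is `typicalDist a b`;
* `sharp`: for at least `c n^2/log n` ordered pairs it is smaller;
* `freq`: the numbers of ordered pairs at distance exactly `2`, `3`, `4`, `5` are `125/450`, `121/450`, `100/450`,
  `104/450` times `n^2`, with an error of at most `C n^2/log n`. -/
structure Law {V : Set ℕ} (G : SimpleGraph V) (δ C c : ℝ) (n : ℕ) : Prop where
  near : ∃ Γ : Set V, (Γᶜ.ncard : ℝ) ≤ (n : ℝ) ^ (1 - δ) ∧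
    ∀ a ∈ Γ, ({b : V | (typicalDist a b : ℕ∞) < G.edist a b}.ncard : ℝ) ≤ (n : ℝ) ^ (1 - δ)
  exact : ({p : V × V | G.edist p.1 p.2 ≠ (typicalDist p.1 p.2 : ℕ∞)}.ncard : ℝ) ≤
    C * n ^ 2 / Real.log n
  sharp : c * n ^ 2 / Real.log n ≤
    ({p : V × V | G.edist p.1 p.2 < (typicalDist p.1 p.2 : ℕ∞)}.ncard : ℝ)
  freq : ∀ i : Fin 4, |({p : V × V | G.edist p.1 p.2 = (((i : ℕ) + 2 : ℕ) : ℕ∞)}.ncard : ℝ) -
    (![125, 121, 100, 104] i : ℝ) / 450 * n ^ 2| ≤ C * n ^ 2 / Real.log n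

end Pool.Agent.Lib.H59L
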