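import Pool.Agent.Lib.H59L.Defs

/-!
# Project H59L, chunk K1 (M): pairs of the same type are at distance 2
-/

open Finset

namespace Pool.Agent.Lib.H59L

open Pool.Agent.Goldbach
open Pool.Agent.Lib.H96G

theorem k1_far {Z u v : ℕ} {I : Finset ℕ} (hv : v ∈ I) (h : ST u v)
    (h' : ¬ ∃ y ∈ Ico Z (2 * Z), Pool.Agent.Lib.GoldbachGraph.hadj u y ∧ Pool.Agent.Lib.GoldbachGraph.hadj v y) : v ∈ far Z u I := by
  unfold far
  simp only [mem_filter]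
  exact ⟨hv, h, h'⟩

/-- Proof. `D2` (`H96G/D2.lean`): `Z0`, `Γ0` with `P0 : PZ n Z0 s t Γ0`, `s = n^(1-c/2+3B)`, `Z0 ≤ 2 n^(1-B)`. Let `(u, v)` be in
`stFar n`. If `u ∈ Γ0` and `4 Z0 ≤ v`, then `v ∈ far Z0 u (Icc (4 Z0) n)`: else `v` and `u` have a common neighbour
`y ∈ [Z0, 2 Z0)` (definition of `far`), and `c0_two` (`c0_mem` for the ranges, `lo = 1`; `Γ0 ⊆ Icc (4 Z0) n`). For each `u ∈ Γ0`
there are at most `s` such `v` (field `be`). The other pairs have `u < 4 Z0`, or `u ∈ Icc (4 Z0) n \ Γ0` (at most `s`, field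
`co`), or `v < 4 Z0`. In total at most `n (4 Z0 + s) + n (4 Z0) + n s ≤ n (16 n^(1-B) + 2 n^(1-c/2+3B)) ≤ n^(2-B/10)`
(`Nm.cst` as in `E1`; `c ≥ 100 B`, `B ≥ 100 b`). -/
theorem K1_st {n M : ℕ} {L : ℕ → ℤ → ℝ} {c B b : ℝ} (hN : Nm n b) (h : GIn n M L c B b) :
    ((stFar n).card : ℝ) ≤ (n : ℝ) ^ (2 - B / 10) := by
  classical
  have hb := h.b_pos
  have hbB := h.hb
  have hBc := h.hB
  have hc := h.hc
  obtain ⟨Z0, Z1, Z2, Γ0, Γ1, Γ2, hM0, hlo0, hhi0, hZ2, hT⟩ := D2 hN h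
  have hP := hT.P0
  have h1 : stFar n ⊆ (Icc 1 (4 * Z0) ×ˢ Icc 1 n) ∪ (((Icc (4 * Z0) n \ Γ0) ×ˢ Icc 1 n) ∪ ((Icc 1 n ×ˢ Icc 1 (4 * Z0)) ∪
      Γ0.biUnion fun u => (far Z0 u (Icc (4 * Z0) n)).image (Prod.mk u))) := by
    rintro ⟨u, v⟩ huv
    unfold stFar at huv
    rw [mem_filter, mem_product] at huv
    obtain ⟨⟨hu, hv⟩, hST, hd⟩ := huv
    have hu1 := mem_Icc.1 hu
    have hv1 := mem_Icc.1 hv
    by_cases hu4 : u ≤ 4 * Z0
    · exact mem_union_left _ (mem_product.2 ⟨mem_Icc.2 ⟨hu1.1, hu4⟩, hv⟩)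
    refine mem_union_right _ ?_
    by_cases huΓ : u ∈ Γ0
    swap
    · exact mem_union_left _ (mem_product.2 ⟨mem_sdiff.2 ⟨mem_Icc.2 ⟨by omega, hu1.2⟩, huΓ⟩, hv⟩)
    refine mem_union_right _ ?_
    by_cases hv4 : v ≤ 4 * Z0
    · exact mem_union_left _ (mem_product.2 ⟨hu, mem_Icc.2 ⟨hv1.1, hv4⟩⟩)
    refine mem_union_right _ ?_
    refine mem_biUnion.2 ⟨u, huΓ, mem_image.2 ⟨v, ?_, rfl⟩⟩
    have hv5 : v ∈ Icc (4 * Z0) n := mem_Icc.2 ⟨by omega, hv1.2⟩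
    refine k1_far hv5 hST ?_
    rintro ⟨y, hy, hay, hay'⟩
    exact hd (c0_two hay hay' (c0_mem le_rfl hy (hP.sub huΓ)).1 (c0_mem le_rfl hy hv5).2 (c0_mem le_rfl hy hv5).1)
  have h2 := (card_le_card h1).trans ((card_union_le _ _).trans (Nat.add_le_add_left ((card_union_le _ _).trans
    (Nat.add_le_add_left (card_union_le _ _) _)) _))
  rw [card_product, card_product, card_product, Nat.card_Icc, Nat.card_Icc] at h2
  have e1 : n + 1 - 1 = n := by omega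
  have e2 : 4 * Z0 + 1 - 1 = 4 * Z0 := by omega
  rw [e1, e2] at h2
  have hs := hN.ppos (1 - c / 2 + 3 * B)
  have h3 : (((Γ0.biUnion fun u => (far Z0 u (Icc (4 * Z0) n)).image (Prod.mk u)).card : ℕ) : ℝ) ≤ n * (n : ℝ) ^ (1 - c / 2 + 3 * B) := by
    have h4 : ((Γ0.biUnion fun u => (far Z0 u (Icc (4 * Z0) n)).image (Prod.mk u)).card) ≤ ∑ u ∈ Γ0, (far Z0 u (Icc (4 * Z0) n)).card :=
      card_biUnion_le.trans (sum_le_sum fun u _ => card_image_le)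
    have h5 : ((∑ u ∈ Γ0, (far Z0 u (Icc (4 * Z0) n)).card : ℕ) : ℝ) ≤ ∑ u ∈ Γ0, (n : ℝ) ^ (1 - c / 2 + 3 * B) := by
      rw [Nat.cast_sum]
      exact sum_le_sum fun u hu => hP.be u hu
    rw [sum_const, nsmul_eq_mul] at h5
    have h6 : Γ0.card ≤ n := by
      have h7 := card_le_card hP.sub
      have h8 : (Icc (4 * Z0) n).card ≤ n := by
        rw [Nat.card_Icc]
        have hZ1 : 1 ≤ Z0 := by
          by_contra h0
          have h9 : Z0 = 0 := by omega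
          rw [h9] at hlo0
          have := hN.ppos (1 - B)
          push_cast at hlo0
          linarith
        omega
      exact h7.trans h8
    have h7 : (Γ0.card : ℝ) ≤ n := by exact_mod_cast h6
    have h8 : ((Γ0.biUnion fun u => (far Z0 u (Icc (4 * Z0) n)).image (Prod.mk u)).card : ℝ) ≤
        ((∑ u ∈ Γ0, (far Z0 u (Icc (4 * Z0) n)).card : ℕ) : ℝ) := by exact_mod_cast h4
    exact h8.trans (h5.trans (mul_le_mul_of_nonneg_right h7 hs.le))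
  have hn0 : (0 : ℝ) ≤ n := Nat.cast_nonneg n
  have h4 : ((stFar n).card : ℝ) ≤ 4 * Z0 * n + (((Icc (4 * Z0) n \ Γ0).card : ℝ) * n + (n * (4 * Z0) +
      (((Γ0.biUnion fun u => (far Z0 u (Icc (4 * Z0) n)).image (Prod.mk u)).card : ℕ) : ℝ))) := by exact_mod_cast h2
  have h5 : ((Icc (4 * Z0) n \ Γ0).card : ℝ) * n ≤ (n : ℝ) ^ (1 - c / 2 + 3 * B) * n := mul_le_mul_of_nonneg_right hP.co hn0
  have h6 : (Z0 : ℝ) * n ≤ 2 * (n : ℝ) ^ (1 - B) * n := mul_le_mul_of_nonneg_right hhi0 hn0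
  have h7 : (n : ℝ) ^ (1 - c / 2 + 3 * B) * n ≤ (n : ℝ) ^ (1 - B) * n := mul_le_mul_of_nonneg_right (hN.mono (by linarith)) hn0
  have h8 : (n : ℝ) ^ (1 - B) * n = (n : ℝ) ^ (2 - B) := by
    have h9 := hN.mul (1 - B) 1
    rw [Real.rpow_one] at h9
    rw [h9]
    congr 1
    ring
  have h9 : (18 : ℝ) * (n : ℝ) ^ (2 - B) ≤ (n : ℝ) ^ (2 - B / 10) := hN.cst (by norm_num) (by linarith)
  nlinarith [h3, h4, h5, h6, h7, h8, h9]

end Pool.Agent.Lib.H59L
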