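import Pool.Agent.Lib.H59L.K1

/-!
# Project H59L, chunk K2 (M): few pairs are too far apart
-/

open Finset

namespace Pool.Agent.Lib.H59L

open Pool.Agent.Goldbach
open Pool.Agent.Lib.H96G
open Pool.Agent.Lib.H18GB (dd)

/-- Proof. Let `Γ ⊆ Icc 1 n` be the set of `GOut 1 n B` (`E1` of `H96G` with `lo = 1`), and `(u, v)` in `farP n` with `u, v ∈ Γ`.
Cases of `dd u v` (`unfold dd`, `3 ∣ x ↔ x % 3 = 0`): value `2`: `ST u v`, the pair is in `stFar n`; value `4`: same parity,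
`edist ≤ 4`, impossible; value `3`: `OT u v` (then `edist ≤ 3`) or the pair is in `ffFar n`; value `5`: `edist ≤ 5`,
impossible. -/
theorem K2_cases {n : ℕ} {Γ : Finset ℕ} (hΓ : Γ ⊆ Icc 1 n)
    (h : ∀ u ∈ Γ, ∀ v ∈ Γ, (HL 1 n).edist u v ≤ 5 ∧ (u % 2 = v % 2 → (HL 1 n).edist u v ≤ 4) ∧
      (OT u v → (HL 1 n).edist u v ≤ 3)) :
    farP n ⊆ stFar n ∪ (ffFar n ∪ (((Icc 1 n \ Γ) ×ˢ Icc 1 n) ∪ (Icc 1 n ×ˢ (Icc 1 n \ Γ)))) := by
  classical
  rintro ⟨u, v⟩ hp
  unfold farP at hp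
  rw [mem_filter, mem_product] at hp
  obtain ⟨⟨hu, hv⟩, hd⟩ := hp
  simp only at hu hv hd
  by_cases hu' : u ∈ Γ
  · by_cases hv' : v ∈ Γ
    · obtain ⟨h5, h4, h3⟩ := h u hu' v hv'
      by_cases hpar : u % 2 = v % 2
      · by_cases h3' : (u % 3 = 0 ↔ v % 3 = 0)
        · have hdd : dd u v = 2 := by
            unfold dd
            rw [if_pos hpar, if_pos h3']
          rw [hdd] at hd
          refine mem_union_left _ ?_
          unfold stFar
          rw [mem_filter, mem_product]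
          refine ⟨⟨hu, hv⟩, ⟨hpar, ?_⟩, hd⟩
          simp only [Nat.dvd_iff_mod_eq_zero]
          exact h3'
        · have hdd : dd u v = 4 := by
            unfold dd
            rw [if_pos hpar, if_neg h3']
          rw [hdd] at hd
          exact absurd (h4 hpar) hd
      · by_cases h33 : u % 3 = 0 ∧ v % 3 = 0
        · by_cases h55 : (u % 5 = 2 ∨ u % 5 = 3) ∧ (v % 5 = 2 ∨ v % 5 = 3)
          · have hdd : dd u v = 5 := by
              unfold dd
              rw [if_neg hpar, if_pos h33, if_pos h55]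
            rw [hdd] at hd
            exact absurd h5 hd
          · have hdd : dd u v = 3 := by
              unfold dd
              rw [if_neg hpar, if_pos h33, if_neg h55]
            rw [hdd] at hd
            refine mem_union_right _ (mem_union_left _ ?_)
            unfold ffFar
            rw [mem_filter, mem_product]
            exact ⟨⟨hu, hv⟩, Nat.dvd_of_mod_eq_zero h33.1, Nat.dvd_of_mod_eq_zero h33.2, hpar, h55, hd⟩
        · by_cases h3n : u % 3 ≠ 0 ∧ v % 3 ≠ 0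
          · have hdd : dd u v = 5 := by
              unfold dd
              rw [if_neg hpar, if_neg h33, if_pos h3n]
            rw [hdd] at hd
            exact absurd h5 hd
          · have hdd : dd u v = 3 := by
              unfold dd
              rw [if_neg hpar, if_neg h33, if_neg h3n]
            rw [hdd] at hd
            refine absurd (h3 ⟨hpar, ?_⟩) hd
            simp only [Nat.dvd_iff_mod_eq_zero]
            tauto
    · refine mem_union_right _ (mem_union_right _ (mem_union_right _ ?_))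
      rw [mem_product, mem_sdiff]
      exact ⟨hu, hv, hv'⟩
  · refine mem_union_right _ (mem_union_right _ (mem_union_left _ ?_))
    rw [mem_product, mem_sdiff]
    exact ⟨⟨hu, hu'⟩, hv⟩

theorem k2_four (δ : ℝ) (hδ : 0 < δ) : ∃ n0 : ℕ, ∀ n : ℕ, n0 ≤ n → (4 : ℝ) ≤ (n : ℝ) ^ δ := by
  have h1 := (tendsto_rpow_atTop hδ).eventually (Filter.eventually_ge_atTop (4 : ℝ))
  have h2 := (tendsto_natCast_atTop_atTop (R := ℝ)).eventually h1
  obtain ⟨n0, hn0⟩ := Filter.eventually_atTop.mp h2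
  exact ⟨n0, fun n hn => hn0 n hn⟩

/-- Proof. `nm_ev` (`H96G`) gives `Nm n b` for `n` large (as in `H96G/Final.lean`). `B ≥ 100 b ≥ 100 c0`. `K1_st`:
`card (stFar n) ≤ n^(2-10 c0)`. `E1` (`lo = 1`) and `K2_cases`: `card (farP n) ≤ n^(2-10 c0) + n^(2-c1) + 2 n n^(1-10 c0)`.
`δ = min (min (5 c0) (c1/2)) 1`: all this is at most `4 n^(2-2δ) ≤ n^(2-δ)` as soon as `n^δ ≥ 4`. -/
theorem K2_far (c0 c1 : ℝ) (hc0 : 0 < c0) (hc1 : 0 < c1) (n1 : ℕ)
    (h : ∀ n : ℕ, n1 ≤ n → ∃ (M : ℕ) (L : ℕ → ℤ → ℝ) (c B b : ℝ), c0 ≤ b ∧ GIn n M L c B b)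
    (hff : ∀ n : ℕ, n1 ≤ n → ((ffFar n).card : ℝ) ≤ (n : ℝ) ^ (2 - c1)) :
    ∃ δ : ℝ, 0 < δ ∧ δ ≤ 1 ∧ ∃ n0 : ℕ, ∀ n : ℕ, n0 ≤ n →
      ((stFar n).card : ℝ) ≤ (n : ℝ) ^ (2 - δ) ∧ ((farP n).card : ℝ) ≤ (n : ℝ) ^ (2 - δ) := by
  obtain ⟨n2, hn2⟩ := nm_ev c0 hc0
  obtain ⟨δ, hδ⟩ : ∃ δ : ℝ, δ = min (min (5 * c0) (c1 / 2)) 1 := ⟨_, rfl⟩
  have hδ0 : 0 < δ := by
    rw [hδ]
    exact lt_min (lt_min (by positivity) (by positivity)) one_pos
  have hδ1 : δ ≤ 5 * c0 := by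
    rw [hδ]
    exact (min_le_left _ _).trans (min_le_left _ _)
  have hδ2 : δ ≤ c1 / 2 := by
    rw [hδ]
    exact (min_le_left _ _).trans (min_le_right _ _)
  have hδ3 : δ ≤ 1 := by
    rw [hδ]
    exact min_le_right _ _
  obtain ⟨n3, hn3⟩ := k2_four δ hδ0
  refine ⟨δ, hδ0, hδ3, max n1 (max n2 n3), fun n hn => ?_⟩
  have e1 : n1 ≤ n := le_trans (le_max_left _ _) hn
  have e2 : n2 ≤ n := le_trans (le_trans (le_max_left _ _) (le_max_right _ _)) hn
  have e3 : n3 ≤ n := le_trans (le_trans (le_max_right _ _) (le_max_right _ _)) hn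
  obtain ⟨M, L, c, B, b, hb, hG⟩ := h n e1
  have hN := hn2 n e2 b hb
  have hB := hG.hb
  have hst := K1_st hN hG
  have hff' := hff n e1
  obtain ⟨⟨Γ, hΓ1, hΓ2, -, hΓ4⟩, -⟩ := E1 (lo := 1) le_rfl hN hG
  have hp := hN.ppos (2 - 2 * δ)
  have h4 : 4 * (n : ℝ) ^ (2 - 2 * δ) ≤ (n : ℝ) ^ (2 - δ) := by
    have h5 := mul_le_mul_of_nonneg_right (hn3 n e3) hp.le
    rw [hN.mul] at h5
    have h6 : δ + (2 - 2 * δ) = 2 - δ := by ring
    rwa [h6] at h5
  have hst' : ((stFar n).card : ℝ) ≤ (n : ℝ) ^ (2 - 2 * δ) := hst.trans (hN.mono (by linarith))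
  have hff'' : ((ffFar n).card : ℝ) ≤ (n : ℝ) ^ (2 - 2 * δ) := hff'.trans (hN.mono (by linarith))
  refine ⟨by linarith, ?_⟩
  have hcard := card_le_card (K2_cases hΓ1 hΓ4)
  have hcard2 := hcard.trans ((card_union_le _ _).trans (Nat.add_le_add_left ((card_union_le _ _).trans
    (Nat.add_le_add_left (card_union_le _ _) _)) _))
  rw [card_product, card_product, card_sdiff_of_subset hΓ1, Nat.card_Icc, Nat.add_sub_cancel] at hcard2
  have hΓn : Γ.card ≤ n := by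
    have h7 := card_le_card hΓ1
    rwa [Nat.card_Icc, Nat.add_sub_cancel] at h7
  have h8 : ((farP n).card : ℝ) ≤ ((stFar n).card : ℝ) + (((ffFar n).card : ℝ) +
      (((n : ℝ) - Γ.card) * n + n * ((n : ℝ) - Γ.card))) := by
    have h9 : ((farP n).card : ℝ) ≤ (((stFar n).card + ((ffFar n).card +
      ((n - Γ.card) * n + n * (n - Γ.card))) : ℕ) : ℝ) := by exact_mod_cast hcard2
    rw [Nat.cast_add, Nat.cast_add, Nat.cast_add, Nat.cast_mul, Nat.cast_mul, Nat.cast_sub hΓn] at h9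
    exact h9
  have h10 : ((n : ℝ) - Γ.card) * n ≤ (n : ℝ) ^ (2 - 2 * δ) := by
    have h11 : (n : ℝ) - Γ.card ≤ (n : ℝ) ^ (1 - B / 10) := by linarith
    have h12 := mul_le_mul_of_nonneg_right h11 hN.pos.le
    refine h12.trans ?_
    have h13 : (n : ℝ) ^ (1 - B / 10) * (n : ℝ) = (n : ℝ) ^ (1 - B / 10 + 1) := by
      rw [Real.rpow_add_one hN.pos.ne']
    rw [h13]
    exact hN.mono (by linarith)
  have h14 : (n : ℝ) * ((n : ℝ) - Γ.card) ≤ (n : ℝ) ^ (2 - 2 * δ) := by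
    rw [mul_comm]
    exact h10
  linarith

end Pool.Agent.Lib.H59L
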