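import Pool.Agent.Lib.H59L.Defs

/-!
# Project H59L, chunk K3 (S/M): Markov inequality
-/

open Finset

namespace Pool.Agent.Lib.H59L

/-- Proof. `Γ` = the `x ∈ Icc 1 n` with at most `n^(1-δ/2)` partners. `farP n` is the disjoint union of the fibres over the first
coordinate (`card_eq_sum_card_fiberwise` or `card_filter_product`), so (number of `x ∈ Icc 1 n \ Γ`) times `n^(1-δ/2)` is at
most `n^(2-δ) = n^(1-δ/2) n^(1-δ/2)`; divide by `n^(1-δ/2) > 0`. -/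
theorem K3_markov (n : ℕ) (δ : ℝ) (hn : 1 ≤ n) (h : ((farP n).card : ℝ) ≤ (n : ℝ) ^ (2 - δ)) :
    ∃ Γ ⊆ Icc 1 n, ((Icc 1 n \ Γ).card : ℝ) ≤ (n : ℝ) ^ (1 - δ / 2) ∧ ∀ x ∈ Γ,
      (((Icc 1 n).filter fun y => (x, y) ∈ farP n).card : ℝ) ≤ (n : ℝ) ^ (1 - δ / 2) := by
  have hn0 : (0 : ℝ) < n := by exact_mod_cast hn
  have hT : 0 < (n : ℝ) ^ (1 - δ / 2) := Real.rpow_pos_of_pos hn0 _
  refine ⟨(Icc 1 n).filter fun x => (((Icc 1 n).filter fun y => (x, y) ∈ farP n).card : ℝ) ≤ (n : ℝ) ^ (1 - δ / 2),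
    filter_subset _ _, ?_, fun x hx => (mem_filter.1 hx).2⟩
  generalize hΓ : ((Icc 1 n).filter fun x => (((Icc 1 n).filter fun y => (x, y) ∈ farP n).card : ℝ) ≤ (n : ℝ) ^ (1 - δ / 2)) = Γ
  have h1 : ((Icc 1 n \ Γ).card : ℝ) * (n : ℝ) ^ (1 - δ / 2) ≤ ∑ x ∈ Icc 1 n \ Γ, (((Icc 1 n).filter fun y => (x, y) ∈ farP n).card : ℝ) := by
    rw [← nsmul_eq_mul]
    refine card_nsmul_le_sum _ _ _ fun x hx => ?_
    rw [mem_sdiff, ← hΓ, mem_filter, not_and, not_le] at hx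
    exact (hx.2 hx.1).le
  have h2 : ∀ x, ((Icc 1 n).filter fun y => (x, y) ∈ farP n).card ≤ ((farP n).filter fun p => p.1 = x).card := by
    intro x
    refine card_le_card_of_injOn (fun y => (x, y)) (fun y hy => ?_) (fun y _ y' _ h => (Prod.mk.inj h).2)
    have hy' := (mem_filter.1 (mem_coe.1 hy)).2
    exact mem_coe.2 (mem_filter.2 ⟨hy', rfl⟩)
  have h3 : (farP n).card = ∑ x ∈ Icc 1 n, ((farP n).filter fun p => p.1 = x).card := by
    refine card_eq_sum_card_fiberwise fun p hp => ?_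
    have hp' := mem_coe.1 hp
    unfold farP at hp'
    exact mem_coe.2 (mem_product.1 (mem_filter.1 hp').1).1
  have h4 : ∑ x ∈ Icc 1 n \ Γ, (((Icc 1 n).filter fun y => (x, y) ∈ farP n).card : ℝ) ≤ ((farP n).card : ℝ) := by
    rw [h3, Nat.cast_sum]
    refine (sum_le_sum fun x _ => ?_).trans (sum_le_sum_of_subset_of_nonneg sdiff_subset fun x _ _ => Nat.cast_nonneg _)
    exact_mod_cast h2 x
  have h5 : (n : ℝ) ^ (2 - δ) = (n : ℝ) ^ (1 - δ / 2) * (n : ℝ) ^ (1 - δ / 2) := by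
    rw [← Real.rpow_add hn0]
    congr 1
    ring
  rw [h5] at h
  exact le_of_mul_le_mul_right (h1.trans (h4.trans h)) hT

end Pool.Agent.Lib.H59L
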