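import Pool.Agent.Lib.H59L.Defs

/-!
# Project H59L, chunk K4 (M): few pairs are closer than the typical distance
-/

open Finset

namespace Pool.Agent.Lib.H59L

open Pool.Agent.Goldbach
open Pool.Agent.Lib.H18GB (dd)

/-- Proof. `card_bad_le` (`Goldbach/Count.lean`) with `N = 2 n + 1`: at most `6 + 6 π (4 n + 7)`, and
`Chebyshev.eventually_primeCounting_le` (compare `bad_isLittle`-type proof in that file): `π (x) ≤ 3 x / log x` for large `x`;
`(4 n + 7)/log (4 n + 7) ≤ 5 n/log n`, `6 ≤ n/log n` for large `n`. -/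
theorem K4_bad : ∃ C : ℝ, 0 < C ∧ ∃ n0 : ℕ, ∀ n : ℕ, n0 ≤ n →
    (((Finset.range (2 * n + 1)).filter Bad).card : ℝ) ≤ C * n / Real.log n := by
  have h1 := Chebyshev.eventually_primeCounting_le (ε := 1) one_pos
  have h2 : Filter.Tendsto (fun n : ℕ => ((4 * n + 7 : ℕ) : ℝ)) Filter.atTop Filter.atTop := by
    apply tendsto_natCast_atTop_atTop.comp
    apply Filter.tendsto_atTop_mono (f := fun N : ℕ => N) (fun N => by omega)
    exact Filter.tendsto_id
  have h3 := h2.eventually h1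
  have h6 : Filter.Tendsto (fun N : ℕ => (N : ℝ)) Filter.atTop Filter.atTop :=
    tendsto_natCast_atTop_atTop
  have h7 := h6.eventually (Real.isLittleO_log_id_atTop.bound (show (0 : ℝ) < 1 / 6 by norm_num))
  have h8 := Filter.eventually_ge_atTop (2 : ℕ)
  obtain ⟨N₀, hN₀⟩ := Filter.eventually_atTop.mp (h3.and (h7.and h8))
  have hl4 : (0 : ℝ) < Real.log 4 + 1 := by
    have : (0 : ℝ) < Real.log 4 := Real.log_pos (by norm_num)
    linarith
  refine ⟨6 * (Real.log 4 + 1) * 11 + 1, by positivity, N₀, fun n hn => ?_⟩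
  obtain ⟨g1, g2, g3⟩ := hN₀ n hn
  rw [Nat.floor_natCast] at g1
  have hn2 : (2 : ℝ) ≤ n := by exact_mod_cast g3
  have hlogn : 0 < Real.log n := Real.log_pos (by linarith)
  have hlog2 : Real.log n ≤ Real.log ((4 * n + 7 : ℕ) : ℝ) := by
    apply Real.log_le_log (by linarith)
    push_cast
    linarith
  have e1 : ((Nat.primeCounting (4 * n + 7) : ℕ) : ℝ) ≤ (Real.log 4 + 1) * (11 * n) / Real.log n := by
    refine g1.trans ?_
    apply div_le_div₀ (by positivity) _ hlogn hlog2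
    apply mul_le_mul_of_nonneg_left _ hl4.le
    push_cast
    linarith
  have e2 : (6 : ℝ) ≤ n / Real.log n := by
    rw [le_div_iff₀ hlogn]
    rw [Real.norm_of_nonneg hlogn.le, id, Real.norm_of_nonneg (by linarith : (0 : ℝ) ≤ n)] at g2
    linarith
  have e3 : (((Finset.range (2 * n + 1)).filter Bad).card : ℝ) ≤
      6 + 6 * (Nat.primeCounting (4 * n + 7) : ℕ) := by
    have h9 := card_bad_le (2 * n + 1)
    have h10 : 2 * (2 * n + 1) + 5 = 4 * n + 7 := by ring
    rw [h10] at h9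
    exact_mod_cast h9
  have e4 : (6 * (Real.log 4 + 1) * 11 + 1) * n / Real.log n =
      6 * ((Real.log 4 + 1) * (11 * n) / Real.log n) + n / Real.log n := by ring
  rw [e4]
  linarith

/-- Proof. `distL_count` (`H18GB2/DistL.lean`); `range (n+1) ⊆ range (2n+1)`, `K4_bad`: at most
`3 (n+1) C n/log n + (n+1) ≤ C' n²/log n`. -/
theorem K4_lower : ∃ C : ℝ, 0 < C ∧ ∃ n0 : ℕ, ∀ n : ℕ, n0 ≤ n → ∀ V S : Set ℕ,
    (∀ a ∈ V, Even a ∧ a ≤ 2 * n) → (∀ m ∈ S, m = 1 ∨ (m.Prime ∧ Odd m)) →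
    ({p : V × V | (halfGraph V S).edist p.1 p.2 < (dd ((p.1 : ℕ) / 2) ((p.2 : ℕ) / 2) : ℕ∞)}.ncard :
      ℝ) ≤ C * n ^ 2 / Real.log n := by
  obtain ⟨C, hC, n0, h0⟩ := K4_bad
  refine ⟨6 * C + 2, by positivity, max n0 2, fun n hn V S hV hS => ?_⟩
  have hn0 : n0 ≤ n := (le_max_left _ _).trans hn
  have hn2' : 2 ≤ n := (le_max_right _ _).trans hn
  have hn2 : (2 : ℝ) ≤ n := by exact_mod_cast hn2'
  have hlogn : 0 < Real.log n := Real.log_pos (by linarith)
  have hb := h0 n hn0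
  have h1 := Pool.Agent.Lib.H18GB.distL_count hV hS
  have h2 : ((Finset.range (n + 1)).filter Bad).card ≤ ((Finset.range (2 * n + 1)).filter Bad).card :=
    Finset.card_le_card (Finset.filter_subset_filter _ (Finset.range_subset_range.2 (by omega)))
  set B := ((Finset.range (2 * n + 1)).filter Bad).card with hB
  have h3 : ({p : V × V | (halfGraph V S).edist p.1 p.2 <
      (dd ((p.1 : ℕ) / 2) ((p.2 : ℕ) / 2) : ℕ∞)}.ncard : ℝ) ≤ 3 * (n + 1) * B + (n + 1) := by
    have h4 : {p : V × V | (halfGraph V S).edist p.1 p.2 <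
      (dd ((p.1 : ℕ) / 2) ((p.2 : ℕ) / 2) : ℕ∞)}.ncard ≤ 3 * (n + 1) * B + (n + 1) := by
      refine h1.trans ?_
      have h5 : 2 * (n + 1) * ((Finset.range (n + 1)).filter Bad).card ≤ 2 * (n + 1) * B :=
        Nat.mul_le_mul_left _ h2
      nlinarith
    exact_mod_cast h4
  refine h3.trans ?_
  have h6 : (3 : ℝ) * (n + 1) * B ≤ 6 * C * n ^ 2 / Real.log n := by
    have h7 : (3 : ℝ) * (n + 1) ≤ 6 * n := by linarith
    calc (3 : ℝ) * (n + 1) * B ≤ 6 * n * B := mul_le_mul_of_nonneg_right h7 (by positivity)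
      _ ≤ 6 * n * (C * n / Real.log n) := mul_le_mul_of_nonneg_left hb (by positivity)
      _ = 6 * C * n ^ 2 / Real.log n := by ring
  have h7 : (n : ℝ) + 1 ≤ 2 * n ^ 2 / Real.log n := by
    rw [le_div_iff₀ hlogn]
    have h8 : Real.log n ≤ n := (Real.log_le_sub_one_of_pos (by linarith)).trans (by linarith)
    nlinarith
  have h8 : (6 * C + 2) * n ^ 2 / Real.log n =
      6 * C * n ^ 2 / Real.log n + 2 * n ^ 2 / Real.log n := by ring
  rw [h8]
  linarith

end Pool.Agent.Lib.H59L
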