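import Pool.Agent.Lib.H59L.Defs

/-!
# Project H59L, chunk K5 (S): frequencies of the typical distances
-/

open Finset

namespace Pool.Agent.Lib.H59L

open Pool.Agent.Lib.H18GB (dd)

theorem k5_mod (x y : ℕ) : dd (x % 30) (y % 30) = dd x y := by
  unfold dd
  rw [show x % 30 % 2 = x % 2 by omega, show y % 30 % 2 = y % 2 by omega,
    show x % 30 % 3 = x % 3 by omega, show y % 30 % 3 = y % 3 by omega,
    show x % 30 % 5 = x % 5 by omega, show y % 30 % 5 = y % 5 by omega]

theorem k5_cls {a : ℕ} (ha : a < 30) (n : ℕ) :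
    ((Finset.Icc 1 n).filter fun x => x % 30 = a).card + (if a = 0 then 1 else 0) =
      (n + 30 - a) / 30 := by
  induction n with
  | zero =>
    simp only [Finset.Icc_eq_empty_of_lt Nat.zero_lt_one, Finset.filter_empty, Finset.card_empty]
    split_ifs <;> omega
  | succ n ih =>
    have e : Finset.Icc 1 (n + 1) = insert (n + 1) (Finset.Icc 1 n) := by
      ext x
      simp only [Finset.mem_insert, Finset.mem_Icc]
      omega
    rw [e, Finset.filter_insert]
    by_cases h : (n + 1) % 30 = a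
    · rw [if_pos h, Finset.card_insert_of_notMem (by simp)]
      split_ifs at ih ⊢ <;> omega
    · rw [if_neg h]
      split_ifs at ih ⊢ <;> omega

theorem k5_bound {a : ℕ} (ha : a < 30) (n : ℕ) :
    |((((Finset.Icc 1 n).filter fun x => x % 30 = a).card : ℕ) : ℝ) - (n : ℝ) / 30| ≤ 1 := by
  have h := k5_cls ha n
  set N := ((Finset.Icc 1 n).filter fun x => x % 30 = a).card with hN
  have h1 : 30 * N ≤ n + 30 := by
    split_ifs at h <;> omega
  have h2 : n ≤ 30 * N + 30 := by
    split_ifs at h <;> omega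
  have h1' : (30 : ℝ) * N ≤ n + 30 := by exact_mod_cast h1
  have h2' : (n : ℝ) ≤ 30 * N + 30 := by exact_mod_cast h2
  rw [abs_le]
  constructor <;> linarith

theorem k5_card (n k : ℕ) :
    ((Finset.Icc 1 n ×ˢ Finset.Icc 1 n).filter fun q => dd q.1 q.2 = k).card =
      ∑ t ∈ (Finset.range 30 ×ˢ Finset.range 30).filter (fun t => dd t.1 t.2 = k),
        ((Finset.Icc 1 n).filter fun x => x % 30 = t.1).card *
          ((Finset.Icc 1 n).filter fun x => x % 30 = t.2).card := by
  rw [Finset.card_eq_sum_card_fiberwise (f := fun q : ℕ × ℕ => (q.1 % 30, q.2 % 30))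
    (t := (Finset.range 30 ×ˢ Finset.range 30).filter (fun t => dd t.1 t.2 = k))]
  · refine Finset.sum_congr rfl fun t ht => ?_
    rw [← Finset.card_product]
    congr 1
    ext q
    rw [Finset.mem_filter, Finset.mem_filter, Finset.mem_product, Finset.mem_product,
      Finset.mem_filter, Finset.mem_filter]
    rw [Finset.mem_filter] at ht
    constructor
    · rintro ⟨⟨⟨h1, h2⟩, _⟩, h3⟩
      have h4 := congrArg Prod.fst h3
      have h5 := congrArg Prod.snd h3
      exact ⟨⟨h1, h4⟩, h2, h5⟩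
    · rintro ⟨⟨h1, h4⟩, h2, h5⟩
      refine ⟨⟨⟨h1, h2⟩, ?_⟩, Prod.ext h4 h5⟩
      rw [← k5_mod, h4, h5]
      exact ht.2
  · intro q hq
    have hq' := (Finset.mem_filter.1 (Finset.mem_coe.1 hq)).2
    refine Finset.mem_coe.2 (Finset.mem_filter.2 ⟨Finset.mem_product.2
      ⟨Finset.mem_range.2 (Nat.mod_lt _ (by norm_num)),
      Finset.mem_range.2 (Nat.mod_lt _ (by norm_num))⟩, ?_⟩)
    rw [k5_mod]
    exact hq'

theorem k5_num : ∀ i : Fin 4,
    ((Finset.range 30 ×ˢ Finset.range 30).filter (fun t => dd t.1 t.2 = (i : ℕ) + 2)).card =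
      ![250, 242, 200, 208] i := by
  decide +kernel

/-- Proof. Copy the file `H18GB2/DDCount.lean` (its auxiliary lemmas are private; the proof of `dd_count` shows exactly this
bound: at most `900` terms, each at most `2 n`). -/
theorem K5_count (n : ℕ) (hn : 1 ≤ n) (i : Fin 4) :
    |((((Finset.Icc 1 n ×ˢ Finset.Icc 1 n).filter fun q => dd q.1 q.2 = (i : ℕ) + 2).card : ℝ)) -
      (![125, 121, 100, 104] i : ℝ) / 450 * n ^ 2| ≤ 1800 * (n : ℝ) := by
  have hnr : (1 : ℝ) ≤ n := by exact_mod_cast hn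
  rw [k5_card]
  set T := (Finset.range 30 ×ˢ Finset.range 30).filter (fun t => dd t.1 t.2 = (i : ℕ) + 2) with hT
  have hc : (T.card : ℝ) = (![250, 242, 200, 208] i : ℕ) := by
    exact_mod_cast k5_num i
  have hTle : (T.card : ℝ) ≤ 900 := by
    have h1 : T.card ≤ 900 := by
      refine (Finset.card_filter_le _ _).trans ?_
      rw [Finset.card_product, Finset.card_range]
    exact_mod_cast h1
  have hmain : (![125, 121, 100, 104] i : ℝ) / 450 * n ^ 2 =
      ∑ _t ∈ T, (n : ℝ) / 30 * ((n : ℝ) / 30) := by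
    rw [Finset.sum_const, nsmul_eq_mul, hc]
    fin_cases i <;> · simp; ring
  rw [hmain]
  push_cast
  rw [← Finset.sum_sub_distrib]
  refine (Finset.abs_sum_le_sum_abs _ _).trans ?_
  have hterm : ∀ t ∈ T, |((((Finset.Icc 1 n).filter fun x => x % 30 = t.1).card : ℕ) : ℝ) *
      ((((Finset.Icc 1 n).filter fun x => x % 30 = t.2).card : ℕ) : ℝ) -
        (n : ℝ) / 30 * ((n : ℝ) / 30)| ≤ 2 * n := by
    intro t ht
    rw [hT, Finset.mem_filter, Finset.mem_product, Finset.mem_range, Finset.mem_range] at ht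
    have h1 := k5_bound ht.1.1 n
    have h2 := k5_bound ht.1.2 n
    have h3 : ((Finset.Icc 1 n).filter fun x => x % 30 = t.1).card ≤ n := by
      refine (Finset.card_filter_le _ _).trans ?_
      rw [Nat.card_Icc]
      omega
    have hA1 : ((((Finset.Icc 1 n).filter fun x => x % 30 = t.1).card : ℕ) : ℝ) ≤ n := by exact_mod_cast h3
    set A := ((((Finset.Icc 1 n).filter fun x => x % 30 = t.1).card : ℕ) : ℝ) with hA
    set B := ((((Finset.Icc 1 n).filter fun x => x % 30 = t.2).card : ℕ) : ℝ) with hB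
    have hA0 : 0 ≤ A := Nat.cast_nonneg _
    have e : A * B - (n : ℝ) / 30 * ((n : ℝ) / 30) = A * (B - (n : ℝ) / 30) + (n : ℝ) / 30 * (A - (n : ℝ) / 30) := by ring
    rw [e]
    refine (abs_add_le _ _).trans ?_
    rw [abs_mul, abs_mul, abs_of_nonneg hA0, abs_of_nonneg (by linarith : (0 : ℝ) ≤ (n : ℝ) / 30)]
    have h4 : A * |B - (n : ℝ) / 30| ≤ A * 1 := mul_le_mul_of_nonneg_left h2 hA0
    have h5 : (n : ℝ) / 30 * |A - (n : ℝ) / 30| ≤ (n : ℝ) / 30 * 1 := mul_le_mul_of_nonneg_left h1 (by linarith)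
    linarith
  refine (Finset.sum_le_sum hterm).trans ?_
  rw [Finset.sum_const, nsmul_eq_mul]
  nlinarith

end Pool.Agent.Lib.H59L
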