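import Mathlib

/-!
# Project H59L, chunk K6A (S/M, ONLY MATHLIB): primes of the form 2x - 3
-/

open Finset

namespace Pool.Agent.Lib.H59L

theorem K6A_card (n : ℕ) (_hn : 3 ≤ n) :
    Nat.primeCounting n ≤ ((Finset.Icc 7 n).filter fun x => (2 * x - 3).Prime).card + 4 := by
  have h1 : Nat.primeCounting n = ((Finset.range (n + 1)).filter Nat.Prime).card := by
    rw [Nat.primeCounting, Nat.primeCounting', Nat.count_eq_card_filter_range]
  rw [h1]
  have h2 : (Finset.range (n + 1)).filter Nat.Prime ⊆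
      (((Finset.Icc 7 n).filter fun x => (2 * x - 3).Prime).image fun x => 2 * x - 3) ∪ {2, 3, 5, 7} := by
    intro p hp
    rw [mem_filter, mem_range] at hp
    obtain ⟨hpn, hpp⟩ := hp
    rw [mem_union]
    by_cases h7 : p ≤ 10
    · right
      interval_cases p <;> first | (simp; done) | (exfalso; revert hpp; norm_num)
    · left
      rw [mem_image]
      have hodd : p % 2 = 1 := by
        rcases hpp.eq_two_or_odd with h | h
        · omega
        · exact h
      refine ⟨(p + 3) / 2, ?_, by omega⟩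
      rw [mem_filter, mem_Icc]
      have e : 2 * ((p + 3) / 2) - 3 = p := by omega
      rw [e]
      exact ⟨⟨by omega, by omega⟩, hpp⟩
  refine (card_le_card h2).trans ((card_union_le _ _).trans ?_)
  have h3 : ({2, 3, 5, 7} : Finset ℕ).card = 4 := rfl
  rw [h3]
  exact Nat.add_le_add_right card_image_le 4

/-- Proof. The map `x ↦ 2 x - 3` is a bijection from the set onto the primes in `[11, 2 n - 3]`, so the number is at least
`π (2 n - 3) - 4 ≥ π n - 4` (`n ≥ 3`; the primes `2, 3, 5, 7`), and `π n ≥ ψ n/log n ≥ (n log 2 - log (n+1))/log n`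
(`Chebyshev.psi_le_primeCounting_mul_log`, `Chebyshev.psi_ge`). `c = 1/2` for instance (`log 2 > 0.69`). -/
theorem K6A_primes : ∃ c : ℝ, 0 < c ∧ ∃ n0 : ℕ, ∀ n : ℕ, n0 ≤ n →
    c * n / Real.log n ≤ (((Finset.Icc 7 n).filter fun x => (2 * x - 3).Prime).card : ℝ) := by
  refine ⟨1 / 2, by norm_num, 4096, fun n hn => ?_⟩
  have hnR : (4096 : ℝ) ≤ n := by exact_mod_cast hn
  have hlog : 0 < Real.log n := Real.log_pos (by linarith)
  have h1 := Chebyshev.psi_le_primeCounting_mul_log n
  have h2 := Chebyshev.psi_ge n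
  have h3 : (Nat.primeCounting n : ℝ) ≤ (((Finset.Icc 7 n).filter fun x => (2 * x - 3).Prime).card : ℝ) + 4 := by
    exact_mod_cast K6A_card n (by omega)
  rw [div_le_iff₀ hlog]
  have h4 : Real.log ((n : ℝ) + 1) ≤ 2 * Real.log n := by
    rw [← Real.log_rpow (by linarith)]
    apply Real.log_le_log (by linarith)
    norm_num
    nlinarith
  have hs : (64 : ℝ) ≤ √(n : ℝ) := by
    rw [show (64 : ℝ) = √(4096 : ℝ) by
      rw [show (4096 : ℝ) = 64 ^ 2 by norm_num, Real.sqrt_sq (by norm_num)]]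
    exact Real.sqrt_le_sqrt hnR
  have hss : √(n : ℝ) * √(n : ℝ) = n := Real.mul_self_sqrt (by linarith)
  have h5 : Real.log n ≤ 2 * √(n : ℝ) := by
    have h6 : Real.log (√(n : ℝ)) = Real.log n / 2 := Real.log_sqrt (by linarith)
    have h7 := Real.log_le_sub_one_of_pos (show (0 : ℝ) < √(n : ℝ) by linarith)
    linarith
  have h8 : 6 * Real.log n ≤ 0.19 * n := by nlinarith
  have h9 : (0.69 : ℝ) * n ≤ n * Real.log 2 := by
    have := Real.log_two_gt_d9
    nlinarith
  have h10 : (Nat.primeCounting n : ℝ) * Real.log n ≤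
      ((((Finset.Icc 7 n).filter fun x => (2 * x - 3).Prime).card : ℝ) + 4) * Real.log n :=
    mul_le_mul_of_nonneg_right h3 hlog.le
  nlinarith

end Pool.Agent.Lib.H59L
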