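import Pool.Agent.Lib.H59L.Defs
import Pool.Agent.Lib.H59L.K6A

/-!
# Project H59L, chunk K6 (M): many pairs are closer than the typical distance
-/

open Finset

namespace Pool.Agent.Lib.H59L

open Pool.Agent.Goldbach
open Pool.Agent.Lib.H96G
open Pool.Agent.Lib.H18GB (dd)

/-- Proof. `x ~ x - 3` (`c0_edge` of `H96G/C0.lean`: `3 ≤ x`, `2 x - 3` prime), `edist (x - 3) y ≤ 2` because the pair `(x - 3, y)`
is in `Icc 1 n ×ˢ Icc 1 n`, of the same type (`x` is not divisible by `3`: otherwise `3 ∣ 2 x - 3`, a prime `≥ 11`; parities) and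
not in `stFar n`; `c0_one`, `c0_tri` (`lo = 1`). `dd x y = 5`: different parity, none divisible by `3`. -/
theorem K6_pair {n x y : ℕ} (hx : x ∈ Icc 7 n) (hp : (2 * x - 3).Prime) (hy : y ∈ Icc 1 n)
    (h2 : x % 2 ≠ y % 2) (h3 : y % 3 ≠ 0) (hs : (x - 3, y) ∉ stFar n) : (x, y) ∈ closeP n := by
  classical
  rw [mem_Icc] at hx hy
  have hx3 : x % 3 ≠ 0 := by
    intro h0
    have h4 : 3 ∣ 2 * x - 3 := by omega
    have h5 := (Nat.prime_dvd_prime_iff_eq Nat.prime_three hp).1 h4
    omega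
  have hST : ST (x - 3) y := by
    refine ⟨by omega, ?_⟩
    constructor
    · intro h
      exact absurd h (by omega)
    · intro h
      exact absurd h (by omega)
  have hd2 : (HL 1 n).edist (x - 3) y ≤ 2 := by
    by_contra hne
    apply hs
    unfold stFar
    rw [mem_filter, mem_product, mem_Icc, mem_Icc]
    refine ⟨⟨?_, ?_⟩, hST, hne⟩
    · simp only
      omega
    · simp only
      omega
  have hd1 : (HL 1 n).edist x (x - 3) ≤ ((1 : ℕ) : ℕ∞) := by
    rw [Nat.cast_one]
    refine c0_one (c0_edge (by omega) hp) ?_ ?_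
    · rw [mem_Icc]
      omega
    · rw [mem_Icc]
      omega
  have hd3 : (HL 1 n).edist x y ≤ ((3 : ℕ) : ℕ∞) := c0_tri (k := 3) hd1 hd2 (by norm_num)
  unfold closeP
  rw [mem_filter, mem_product, mem_Icc, mem_Icc]
  refine ⟨⟨?_, ?_⟩, ?_, ?_⟩
  · simp only
    omega
  · simp only
    omega
  · simp only [dd]
    rw [if_neg h2, if_neg (by tauto), if_pos ⟨hx3, h3⟩]
  · exact_mod_cast hd3

/-- Proof. The number of `y ∈ Icc 1 n` of given parity and not divisible by `3` is at least `n/3 - 2` (two classes modulo `6`).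
-/
theorem K6_class (n r : ℕ) :
    (n : ℝ) / 3 - 2 ≤ (((Icc 1 n).filter fun y => r % 2 ≠ y % 2 ∧ y % 3 ≠ 0).card : ℝ) := by
  have hinj : ∀ a : ℕ, 1 ≤ a → a ≤ 6 → r % 2 ≠ a % 2 → a % 3 ≠ 0 →
      (range (n / 6)).image (fun k => 6 * k + a) ⊆
        (Icc 1 n).filter fun y => r % 2 ≠ y % 2 ∧ y % 3 ≠ 0 := by
    intro a ha1 ha6 hra ha3 y hy
    rw [mem_image] at hy
    obtain ⟨k, hk, rfl⟩ := hy
    rw [mem_range] at hk
    rw [mem_filter, mem_Icc]
    omega
  have key : 2 * (n / 6) ≤ ((Icc 1 n).filter fun y => r % 2 ≠ y % 2 ∧ y % 3 ≠ 0).card := by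
    have hcard : ∀ a : ℕ, ((range (n / 6)).image (fun k => 6 * k + a)).card = n / 6 := by
      intro a
      rw [card_image_of_injective _ (fun x y h => by have h9 : 6 * x + a = 6 * y + a := h; omega), card_range]
    have hdis : ∀ a b : ℕ, a < b → b < a + 6 →
        Disjoint ((range (n / 6)).image (fun k => 6 * k + a)) ((range (n / 6)).image (fun k => 6 * k + b)) := by
      intro a b hab hba
      rw [disjoint_left]
      intro y hy hy'
      rw [mem_image] at hy hy'
      obtain ⟨k, hk, rfl⟩ := hy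
      obtain ⟨k', hk', h⟩ := hy'
      omega
    rcases Nat.mod_two_eq_zero_or_one r with hr | hr
    · have h1 := hinj 1 (by omega) (by omega) (by omega) (by omega)
      have h2 := hinj 5 (by omega) (by omega) (by omega) (by omega)
      have h3 := card_le_card (union_subset h1 h2)
      rw [card_union_of_disjoint (hdis 1 5 (by omega) (by omega)), hcard, hcard] at h3
      omega
    · have h1 := hinj 2 (by omega) (by omega) (by omega) (by omega)
      have h2 := hinj 4 (by omega) (by omega) (by omega) (by omega)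
      have h3 := card_le_card (union_subset h1 h2)
      rw [card_union_of_disjoint (hdis 2 4 (by omega) (by omega)), hcard, hcard] at h3
      omega
  have h6 : (n : ℝ) ≤ 6 * ((n / 6 : ℕ) : ℝ) + 6 := by
    have : n ≤ 6 * (n / 6) + 6 := by omega
    exact_mod_cast this
  have h7 : (2 : ℝ) * ((n / 6 : ℕ) : ℝ) ≤
      (((Icc 1 n).filter fun y => r % 2 ≠ y % 2 ∧ y % 3 ≠ 0).card : ℝ) := by exact_mod_cast key
  linarith

/-- Proof. The pairs `(x, y)` with `x ∈ Icc 7 n`, `2 x - 3` prime, `y` as in `K6_class` (for `r = x`) are at least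
`(c n/log n) (n/3 - 2)` (`K6A_primes`), and `(x, y) ↦ (x - 3, y)` is injective, so for all but `n^(2-δ)` of them
`(x - 3, y) ∉ stFar n` and `(x, y) ∈ closeP n` (`K6_pair`). `n^(2-δ) ≤ (c/12) n²/log n` for `n` large. -/
theorem K6_close (δ : ℝ) (hδ : 0 < δ) (n1 : ℕ)
    (h : ∀ n : ℕ, n1 ≤ n → ((stFar n).card : ℝ) ≤ (n : ℝ) ^ (2 - δ)) :
    ∃ c : ℝ, 0 < c ∧ ∃ n0 : ℕ, ∀ n : ℕ, n0 ≤ n → c * n ^ 2 / Real.log n ≤ ((closeP n).card : ℝ) := by
  classical
  obtain ⟨c, hc, n0, h0⟩ := K6A_primes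
  have hlim : Filter.Tendsto (fun n : ℕ => (n : ℝ)) Filter.atTop Filter.atTop :=
    tendsto_natCast_atTop_atTop
  have hev := hlim.eventually ((isLittleO_log_rpow_atTop hδ).bound (show (0 : ℝ) < c / 12 by positivity))
  obtain ⟨n2, hn2⟩ := Filter.eventually_atTop.1 (hev.and (Filter.eventually_ge_atTop 24))
  refine ⟨c / 6, by positivity, max n0 (max n1 n2), fun n hn => ?_⟩
  have hn0 : n0 ≤ n := (le_max_left _ _).trans hn
  have hn1 : n1 ≤ n := ((le_max_left _ _).trans (le_max_right _ _)).trans hn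
  have hn2' : n2 ≤ n := ((le_max_right _ _).trans (le_max_right _ _)).trans hn
  obtain ⟨hlog, hn24'⟩ := hn2 n hn2'
  have hn24 : (24 : ℝ) ≤ n := by exact_mod_cast hn24'
  have hnpos : (0 : ℝ) < n := by linarith
  have hlogn : 0 < Real.log n := Real.log_pos (by linarith)
  set P := (Icc 7 n).filter fun x => (2 * x - 3).Prime with hP
  have hP0 := h0 n hn0
  rw [← hP] at hP0
  let U : Finset (ℕ × ℕ) := P.biUnion fun x =>
    ({x} : Finset ℕ) ×ˢ ((Icc 1 n).filter fun y => x % 2 ≠ y % 2 ∧ y % 3 ≠ 0)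
  have hU : (P.card : ℝ) * (n / 3 - 2) ≤ U.card := by
    have h1 : U.card = ∑ x ∈ P, ((Icc 1 n).filter fun y => x % 2 ≠ y % 2 ∧ y % 3 ≠ 0).card := by
      rw [card_biUnion]
      · refine sum_congr rfl fun x _ => ?_
        rw [card_product, card_singleton, one_mul]
      · intro x _ x' _ hxx
        rw [Function.onFun, disjoint_left]
        rintro ⟨a, b⟩ hab hab'
        rw [mem_product, mem_singleton] at hab hab'
        exact hxx (hab.1.symm.trans hab'.1)
    rw [h1, Nat.cast_sum, ← nsmul_eq_mul, ← sum_const]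
    exact sum_le_sum fun x _ => K6_class n x
  have hsub : U ⊆ closeP n ∪ (stFar n).image fun p => (p.1 + 3, p.2) := by
    rintro ⟨x, y⟩ hxy
    simp only [U, mem_biUnion, mem_product, mem_singleton] at hxy
    obtain ⟨x', hx', rfl, hy⟩ := hxy
    rw [hP, mem_filter] at hx'
    rw [mem_filter] at hy
    rw [mem_union]
    by_cases hs : (x - 3, y) ∈ stFar n
    · right
      rw [mem_image]
      refine ⟨(x - 3, y), hs, ?_⟩
      have h7 := (mem_Icc.1 hx'.1).1
      simp only [Prod.mk.injEq, and_true]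
      omega
    · left
      exact K6_pair hx'.1 hx'.2 hy.1 hy.2.1 hy.2.2 hs
  have hcard : (U.card : ℝ) ≤ (closeP n).card + (stFar n).card := by
    have h1 := (card_le_card hsub).trans (card_union_le _ _)
    have h2 : ((stFar n).image fun p => (p.1 + 3, p.2)).card ≤ (stFar n).card := card_image_le
    have h3 : U.card ≤ (closeP n).card + (stFar n).card := by omega
    exact_mod_cast h3
  have hst := h n hn1
  have h5 : (n : ℝ) ^ (2 - δ) ≤ c / 12 * n ^ 2 / Real.log n := by
    rw [le_div_iff₀ hlogn, Real.rpow_sub hnpos, div_mul_eq_mul_div, div_le_iff₀ (Real.rpow_pos_of_pos hnpos _)]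
    rw [Real.norm_of_nonneg hlogn.le, Real.norm_of_nonneg (Real.rpow_nonneg hnpos.le _)] at hlog
    have h6 : (n : ℝ) ^ (2 : ℝ) = n ^ 2 := by norm_cast
    rw [h6]
    nlinarith [sq_nonneg (n : ℝ)]
  have h6 : c / 4 * n ^ 2 / Real.log n ≤ (P.card : ℝ) * (n / 3 - 2) := by
    have h7 : (n : ℝ) / 4 ≤ n / 3 - 2 := by linarith
    calc c / 4 * n ^ 2 / Real.log n = (c * n / Real.log n) * (n / 4) := by ring
      _ ≤ P.card * (n / 3 - 2) := mul_le_mul hP0 h7 (by positivity) (by positivity)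
  have h8 : c / 4 * n ^ 2 / Real.log n = c / 6 * n ^ 2 / Real.log n + c / 12 * n ^ 2 / Real.log n := by ring
  linarith

end Pool.Agent.Lib.H59L
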