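import Pool.Agent.Lib.H59L.K3

/-!
# Project H59L, chunk K7A (M): transfer to the Goldbach graphs, distances of the generic vertices
-/

open Finset

namespace Pool.Agent.Lib.H59L

open Pool.Agent.Goldbach
open Pool.Agent.Lib.H96G
open Pool.Agent.Lib.H18GB (dd)

theorem k7a_num {δ : ℝ} (hδ : 0 < δ) (hδ1 : δ ≤ 1) : ∃ n0 : ℕ, ∀ n : ℕ, n0 ≤ n →
    1 ≤ n ∧ (n : ℝ) ^ (1 - δ / 2) + 1 ≤ (n : ℝ) ^ (1 - δ / 3) := by
  have h1 : ∀ᶠ n : ℕ in Filter.atTop, (2 : ℝ) ≤ (n : ℝ) ^ (δ / 6) :=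
    ((tendsto_rpow_atTop (show 0 < δ / 6 by linarith)).comp tendsto_natCast_atTop_atTop).eventually_ge_atTop 2
  obtain ⟨n0, hn0⟩ := Filter.eventually_atTop.1 h1
  refine ⟨max n0 1, fun n hn => ⟨(le_max_right _ _).trans hn, ?_⟩⟩
  have h2 := hn0 n ((le_max_left _ _).trans hn)
  have hn1 : (1 : ℝ) ≤ n := by exact_mod_cast (le_max_right _ _).trans hn
  have h3 : (1 : ℝ) ≤ (n : ℝ) ^ (1 - δ / 2) := Real.one_le_rpow hn1 (by linarith)
  have h4 : (n : ℝ) ^ (1 - δ / 3) = (n : ℝ) ^ (1 - δ / 2) * (n : ℝ) ^ (δ / 6) := by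
    rw [← Real.rpow_add (by linarith)]
    congr 1
    ring
  rw [h4]
  nlinarith

/-- Proof. `V` is finite (`Tr.finite_of_le`). `K3_markov` gives `Γ0`; `Γ = {a : V | a/2 ∈ Γ0}`. `a ∈ V` is `2 x` with `x ≤ n`. The
complement of `Γ` injects (by `a ↦ a/2`) into `Icc 1 n \ Γ0` and `{0}`: at most `n^(1-δ/2) + 1` (compare `e2_compl` in
`H96G/E2.lean`). For `a = 2 x ∈ Γ` and `b = 2 y` with `typicalDist a b < edist a b`: `typicalDist_two_mul`; `y = 0`, or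
`(x, y) ∈ farP n` by `E2_edist` (`H96G/E2.lean`, `lo = 1`, `k = dd x y`): at most `n^(1-δ/2) + 1` such `b`. And
`n^(1-δ/2) + 1 ≤ n^(1-δ/3)` for `n` large (`1 ≤ n^(1-δ/2)`, `2 ≤ n^(δ/6)`). -/
theorem K7_near {δ : ℝ} (hδ : 0 < δ) (hδ1 : δ ≤ 1) : ∃ n0 : ℕ, ∀ n : ℕ, n0 ≤ n →
    ((farP n).card : ℝ) ≤ (n : ℝ) ^ (2 - δ) → ∀ V S : Set ℕ, (∀ a ∈ V, Even a ∧ a ≤ 2 * n) →
    (∀ x ∈ Finset.Icc 1 n, 2 * x ∈ V) → (∀ m, m.Prime → Odd m → m < 2 * n → m ∈ S) →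
    ∃ Γ : Set V, (Γᶜ.ncard : ℝ) ≤ (n : ℝ) ^ (1 - δ / 3) ∧ ∀ a ∈ Γ,
      ({b : V | (typicalDist a b : ℕ∞) < (halfGraph V S).edist a b}.ncard : ℝ) ≤
        (n : ℝ) ^ (1 - δ / 3) := by
  classical
  obtain ⟨n0, hn0⟩ := k7a_num hδ hδ1
  refine ⟨n0, fun n hn hfar V S hV hV2 hS => ?_⟩
  obtain ⟨hn1, hnum⟩ := hn0 n hn
  obtain ⟨Γ0, hΓ1, hΓ2, hΓ3⟩ := K3_markov n δ hn1 hfar
  have : Finite V := Tr.finite_of_le hV
  refine ⟨{a : V | (a : ℕ) / 2 ∈ Γ0}, ?_, ?_⟩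
  · refine (e2_compl hΓ1 hV).trans ?_
    have h1 : ((Icc 1 n \ Γ0).card : ℝ) = (n : ℝ) - Γ0.card := by
      rw [card_sdiff_of_subset hΓ1, Nat.card_Icc, Nat.add_sub_cancel, Nat.cast_sub]
      have := card_le_card hΓ1
      rwa [Nat.card_Icc, Nat.add_sub_cancel] at this
    linarith
  · intro a ha
    have hx' : (a : ℕ) / 2 ∈ Γ0 := ha
    obtain ⟨a, haV⟩ := a
    obtain ⟨⟨x, hx⟩, ha2⟩ := hV a haV
    have hax : a = 2 * x := by omega
    subst hax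
    have hx0 : x ∈ Γ0 := by
      have h1 : 2 * x / 2 ∈ Γ0 := hx'
      rwa [Nat.mul_div_cancel_left _ (by norm_num : 0 < 2)] at h1
    have hx1 : x ∈ Icc 1 n := hΓ1 hx0
    have h1 : {b : V | (typicalDist (2 * x) b : ℕ∞) < (halfGraph V S).edist ⟨2 * x, haV⟩ b}.ncard ≤
        (insert 0 ((Icc 1 n).filter fun y => (x, y) ∈ farP n)).card := by
      rw [← Set.ncard_coe_finset]
      apply Set.ncard_le_ncard_of_injOn (fun b : V => (b : ℕ) / 2)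
      · rintro ⟨b, hb⟩ h
        obtain ⟨⟨y, hy⟩, hb2⟩ := hV b hb
        have hby : b = 2 * y := by omega
        subst hby
        rw [Finset.mem_coe, mem_insert, mem_filter, mem_Icc]
        change 2 * y / 2 = 0 ∨ (1 ≤ 2 * y / 2 ∧ 2 * y / 2 ≤ n) ∧ (x, 2 * y / 2) ∈ farP n
        rw [Nat.mul_div_cancel_left _ (by norm_num : 0 < 2)]
        by_cases hy0 : y = 0
        · exact Or.inl hy0
        · refine Or.inr ⟨⟨by omega, by omega⟩, ?_⟩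
          have hyI : y ∈ Icc 1 n := by
            rw [mem_Icc]
            omega
          unfold farP
          rw [mem_filter, mem_product]
          refine ⟨⟨hx1, hyI⟩, fun hle => ?_⟩
          have h2 := E2_edist (V := V) (S := S) hV2 hS hx1 hyI hle
          have h3 : (typicalDist (2 * x) (2 * y) : ℕ∞) <
            (halfGraph V S).edist ⟨2 * x, haV⟩ ⟨2 * y, hb⟩ := h
          rw [typicalDist_two_mul] at h3
          exact absurd h2 (not_le.2 h3)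
      · rintro ⟨b, hb⟩ - ⟨b', hb'⟩ - hbb
        obtain ⟨k, hk⟩ := (hV b hb).1
        obtain ⟨l, hl⟩ := (hV b' hb').1
        simp only at hbb
        apply Subtype.ext
        change b = b'
        omega
    have h2 : (({b : V | (typicalDist (2 * x) b : ℕ∞) <
        (halfGraph V S).edist ⟨2 * x, haV⟩ b}.ncard : ℕ) : ℝ) ≤
        (((Icc 1 n).filter fun y => (x, y) ∈ farP n).card : ℝ) + 1 := by
      exact_mod_cast h1.trans (card_insert_le _ _)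
    exact h2.trans ((add_le_add_left (hΓ3 x hx0) 1).trans hnum)

end Pool.Agent.Lib.H59L
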