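import Pool.Agent.Lib.H59L.K4

/-!
# Project H59L, chunk K7B (M): transfer to the Goldbach graphs, the exceptional pairs
-/

open Finset

namespace Pool.Agent.Lib.H59L

open Pool.Agent.Goldbach
open Pool.Agent.Lib.H96G
open Pool.Agent.Lib.H18GB (dd)

/-- few pairs are at distance greater than the typical one -/
theorem k7b_upper {n : ℕ} {V S : Set ℕ} (hV : ∀ a ∈ V, Even a ∧ a ≤ 2 * n) (hV2 : ∀ x ∈ Finset.Icc 1 n, 2 * x ∈ V)
    (hS : ∀ m, m.Prime → Odd m → m < 2 * n → m ∈ S) :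
    {p : V × V | (dd ((p.1 : ℕ) / 2) ((p.2 : ℕ) / 2) : ℕ∞) < (halfGraph V S).edist p.1 p.2}.ncard ≤
      (farP n).card + 2 * (n + 1) := by
  classical
  have : Finite V := Tr.finite_of_le hV
  set B : Finset (ℕ × ℕ) := farP n ∪ (({0} ×ˢ Finset.range (n + 1)) ∪ (Finset.range (n + 1) ×ˢ {0}))
    with hB
  have h6 : {p : V × V | (dd ((p.1 : ℕ) / 2) ((p.2 : ℕ) / 2) : ℕ∞) <
      (halfGraph V S).edist p.1 p.2}.ncard ≤ B.card := by
    rw [← Set.ncard_coe_finset]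
    apply Set.ncard_le_ncard_of_injOn (fun p : V × V => ((p.1 : ℕ) / 2, (p.2 : ℕ) / 2))
    · rintro ⟨⟨a, ha⟩, ⟨b, hb⟩⟩ hab
      obtain ⟨⟨x, hx⟩, han⟩ := hV a ha
      obtain ⟨⟨y, hy⟩, hbn⟩ := hV b hb
      have hax : a = 2 * x := by omega
      have hby : b = 2 * y := by omega
      subst hax hby
      simp only [Set.mem_ofPred_eq] at hab
      simp only [Nat.mul_div_cancel_left _ (by norm_num : 0 < 2)] at hab ⊢
      rw [Finset.mem_coe, hB, farP]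
      simp only [Finset.mem_union, Finset.mem_filter, Finset.mem_product, Finset.mem_singleton,
        Finset.mem_range]
      by_cases hx0 : x = 0
      · exact Or.inr (Or.inl ⟨hx0, by omega⟩)
      by_cases hy0 : y = 0
      · exact Or.inr (Or.inr ⟨by omega, hy0⟩)
      left
      have hx1 : x ∈ Finset.Icc 1 n := Finset.mem_Icc.mpr ⟨by omega, by omega⟩
      have hy1 : y ∈ Finset.Icc 1 n := Finset.mem_Icc.mpr ⟨by omega, by omega⟩
      refine ⟨⟨hx1, hy1⟩, fun h7 => ?_⟩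
      exact absurd (E2_edist hV2 hS hx1 hy1 (k := dd x y) h7) (not_le.mpr hab)
    · rintro ⟨⟨a, ha⟩, ⟨b, hb⟩⟩ - ⟨⟨a', ha'⟩, ⟨b', hb'⟩⟩ - hab
      have h1 := (hV a ha).1
      have h2 := (hV b hb).1
      have h3 := (hV a' ha').1
      have h4 := (hV b' hb').1
      simp only [Prod.mk.injEq] at hab
      obtain ⟨k1, e1⟩ := h1
      obtain ⟨k2, e2⟩ := h2
      obtain ⟨k3, e3⟩ := h3
      obtain ⟨k4, e4⟩ := h4
      ext
      · simp only
        omega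
      · simp only
        omega
  have h7 : B.card ≤ (farP n).card + 2 * (n + 1) := by
    refine (Finset.card_union_le _ _).trans (Nat.add_le_add_left ?_ _)
    refine (Finset.card_union_le _ _).trans ?_
    rw [Finset.card_product, Finset.card_product, Finset.card_range, Finset.card_singleton]
    omega
  exact h6.trans h7

/-- Proof. `V` is finite (`Tr.finite_of_le`). With `a = 2 x`, `b = 2 y` (`x, y ≤ n`), `typicalDist_two_mul`: the pairs with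
`edist < typicalDist` are counted by `K4_lower`; those with `typicalDist < edist` inject by halving into `farP n` and the pairs
with `x = 0` or `y = 0` (`E2_edist` of `H96G/E2.lean` with `lo = 1`, `k = dd x y`; compare `distM_upper` in
`H18GB2/DistM.lean`): at most `n^(2-δ) + 2 (n+1) ≤ n²/log n` for `n` large. -/
theorem K7_exact {δ : ℝ} (hδ : 0 < δ) : ∃ C : ℝ, 0 < C ∧ ∃ n0 : ℕ, ∀ n : ℕ, n0 ≤ n →
    ((farP n).card : ℝ) ≤ (n : ℝ) ^ (2 - δ) → ∀ V S : Set ℕ, (∀ a ∈ V, Even a ∧ a ≤ 2 * n) →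
    (∀ x ∈ Finset.Icc 1 n, 2 * x ∈ V) → (∀ m, m.Prime → Odd m → m < 2 * n → m ∈ S) →
    (∀ m ∈ S, m = 1 ∨ (m.Prime ∧ Odd m)) →
    ({p : V × V | (halfGraph V S).edist p.1 p.2 ≠ (typicalDist p.1 p.2 : ℕ∞)}.ncard : ℝ) ≤
      C * n ^ 2 / Real.log n := by
  obtain ⟨C1, hC1, n1, h1⟩ := K4_lower
  have hlog1 : ∀ᶠ x : ℝ in Filter.atTop, ‖Real.log x‖ ≤ 1 * ‖x ^ δ‖ :=
    (isLittleO_log_rpow_atTop hδ).def one_pos
  have hlog2 : ∀ᶠ x : ℝ in Filter.atTop, ‖Real.log x‖ ≤ 1 / 4 * ‖x ^ (1 : ℝ)‖ :=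
    (isLittleO_log_rpow_atTop one_pos).def (by norm_num)
  obtain ⟨x1, hx1⟩ := Filter.eventually_atTop.1 (hlog1.and hlog2)
  obtain ⟨n2, hn2⟩ := exists_nat_ge x1
  refine ⟨C1 + 2, by positivity, max n1 (max n2 3), fun n hn hfar V S hV hV2 hS hS' => ?_⟩
  have hn1 : n1 ≤ n := le_trans (le_max_left _ _) hn
  have hn2' : n2 ≤ n := le_trans (le_max_left _ _) (le_trans (le_max_right _ _) hn)
  have hn3 : 3 ≤ n := le_trans (le_max_right _ _) (le_trans (le_max_right _ _) hn)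
  have hnr : (3 : ℝ) ≤ n := by exact_mod_cast hn3
  have hn0 : (0 : ℝ) < n := by linarith
  have hx : x1 ≤ (n : ℝ) := hn2.trans (by exact_mod_cast hn2')
  obtain ⟨a1, a2⟩ := hx1 n hx
  have hL : 0 < Real.log n := Real.log_pos (by linarith)
  rw [Real.norm_eq_abs, abs_of_pos hL, Real.norm_eq_abs, abs_of_pos (Real.rpow_pos_of_pos hn0 _), one_mul] at a1
  rw [Real.norm_eq_abs, abs_of_pos hL, Real.rpow_one, Real.norm_eq_abs, abs_of_pos hn0] at a2
  have b1 : (n : ℝ) ^ (2 - δ) ≤ n ^ 2 / Real.log n := by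
    rw [le_div_iff₀ hL]
    calc (n : ℝ) ^ (2 - δ) * Real.log n ≤ (n : ℝ) ^ (2 - δ) * (n : ℝ) ^ δ :=
          mul_le_mul_of_nonneg_left a1 (Real.rpow_nonneg hn0.le _)
      _ = (n : ℝ) ^ (2 : ℝ) := by rw [← Real.rpow_add hn0, sub_add_cancel]
      _ = (n : ℝ) ^ 2 := Real.rpow_two _
  have b2 : 2 * ((n : ℝ) + 1) ≤ n ^ 2 / Real.log n := by
    rw [le_div_iff₀ hL]
    have h5 : 2 * ((n : ℝ) + 1) ≤ 4 * n := by linarith
    calc 2 * ((n : ℝ) + 1) * Real.log n ≤ 4 * n * (1 / 4 * n) :=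
          mul_le_mul h5 a2 hL.le (by positivity)
      _ = (n : ℝ) ^ 2 := by ring
  have e1 := k7b_upper hV hV2 hS
  have e2 := h1 n hn1 V S hV hS'
  have : Finite V := Tr.finite_of_le hV
  have h3 : {p : V × V | (halfGraph V S).edist p.1 p.2 ≠ (typicalDist p.1 p.2 : ℕ∞)} ⊆
      {p : V × V | (dd ((p.1 : ℕ) / 2) ((p.2 : ℕ) / 2) : ℕ∞) < (halfGraph V S).edist p.1 p.2} ∪
      {p : V × V | (halfGraph V S).edist p.1 p.2 < (dd ((p.1 : ℕ) / 2) ((p.2 : ℕ) / 2) : ℕ∞)} := by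
    rintro ⟨⟨a, ha⟩, ⟨b, hb⟩⟩ hp
    obtain ⟨⟨x, hx⟩, han⟩ := hV a ha
    obtain ⟨⟨y, hy⟩, hbn⟩ := hV b hb
    have hax : a = 2 * x := by omega
    have hby : b = 2 * y := by omega
    subst hax hby
    have hp' : (halfGraph V S).edist ⟨2 * x, ha⟩ ⟨2 * y, hb⟩ ≠ (typicalDist (2 * x) (2 * y) : ℕ∞) := hp
    rw [typicalDist_two_mul] at hp'
    have d1 : 2 * x / 2 = x := by omega
    have d2 : 2 * y / 2 = y := by omega
    rcases lt_or_gt_of_ne hp' with h | h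
    · right
      show (halfGraph V S).edist ⟨2 * x, ha⟩ ⟨2 * y, hb⟩ < (dd (2 * x / 2) (2 * y / 2) : ℕ∞)
      rw [d1, d2]
      exact h
    · left
      show (dd (2 * x / 2) (2 * y / 2) : ℕ∞) < (halfGraph V S).edist ⟨2 * x, ha⟩ ⟨2 * y, hb⟩
      rw [d1, d2]
      exact h
  have h4 := (Set.ncard_le_ncard h3 (Set.toFinite _)).trans (Set.ncard_union_le _ _)
  have h5 : ({p : V × V | (halfGraph V S).edist p.1 p.2 ≠ (typicalDist p.1 p.2 : ℕ∞)}.ncard : ℝ) ≤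
      ((farP n).card + 2 * (n + 1)) +
      ({p : V × V | (halfGraph V S).edist p.1 p.2 <
        (dd ((p.1 : ℕ) / 2) ((p.2 : ℕ) / 2) : ℕ∞)}.ncard : ℝ) := by
    exact_mod_cast h4.trans (Nat.add_le_add_right e1 _)
  have h6 : (C1 + 2) * (n : ℝ) ^ 2 / Real.log n = C1 * n ^ 2 / Real.log n + n ^ 2 / Real.log n + n ^ 2 / Real.log n := by
    ring
  rw [h6]
  linarith

end Pool.Agent.Lib.H59L
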