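import Pool.Agent.Lib.H59L.Defs

/-!
# Project H59L, chunk K7C (S/M): transfer to the Goldbach graphs, the close pairs
-/

open Finset

namespace Pool.Agent.Lib.H59L

open Pool.Agent.Goldbach
open Pool.Agent.Lib.H96G
open Pool.Agent.Lib.H18GB (dd)

/-- Proof. `V` is finite (`Tr.finite_of_le`). The map `(x, y) ↦ (2 x, 2 y)` from `closeP n` to the set on the right is injective;
`typicalDist (2 x) (2 y) = dd x y = 5` (`typicalDist_two_mul`), `edist ≤ 3 < 5` by `E2_edist` (`lo = 1`, `k = 3`).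
(`Set.ncard_le_ncard`, `Set.ncard_image_of_injOn`, or `Finset.card_le_card_of_injOn` with `Set.Finite.toFinset`.) -/
theorem K7_sharp {n : ℕ} {V S : Set ℕ} (hV : ∀ a ∈ V, Even a ∧ a ≤ 2 * n)
    (hV2 : ∀ x ∈ Finset.Icc 1 n, 2 * x ∈ V) (hS : ∀ m, m.Prime → Odd m → m < 2 * n → m ∈ S) :
    (closeP n).card ≤
      {p : V × V | (halfGraph V S).edist p.1 p.2 < (typicalDist p.1 p.2 : ℕ∞)}.ncard := by
  classical
  have hfin : Finite V := Tr.finite_of_le hV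
  have hfin2 : {p : V × V | (halfGraph V S).edist p.1 p.2 < (typicalDist p.1 p.2 : ℕ∞)}.Finite := Set.toFinite _
  rw [Set.ncard_eq_toFinset_card _ hfin2]
  have hmem : ∀ p ∈ closeP n, p.1 ∈ Finset.Icc 1 n ∧ p.2 ∈ Finset.Icc 1 n ∧ dd p.1 p.2 = 5 ∧ (HL 1 n).edist p.1 p.2 ≤ 3 := by
    intro p hp
    unfold closeP at hp
    have h1 := mem_filter.1 hp
    have h2 := mem_product.1 h1.1
    exact ⟨h2.1, h2.2, h1.2.1, h1.2.2⟩
  rw [← card_attach]
  refine card_le_card_of_injOn (fun p : {p // p ∈ closeP n} => ((⟨2 * p.1.1, hV2 _ (hmem p.1 p.2).1⟩, ⟨2 * p.1.2, hV2 _ (hmem p.1 p.2).2.1⟩) : V × V))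
    (fun p _ => ?_) (fun p _ q _ h => ?_)
  · rw [Set.Finite.coe_toFinset]
    obtain ⟨h1, h2, h3, h4⟩ := hmem p.1 p.2
    show (halfGraph V S).edist ⟨2 * p.1.1, hV2 _ h1⟩ ⟨2 * p.1.2, hV2 _ h2⟩ < (typicalDist (2 * p.1.1) (2 * p.1.2) : ℕ∞)
    rw [typicalDist_two_mul, h3]
    refine lt_of_le_of_lt (E2_edist hV2 hS h1 h2 (k := 3) h4) ?_
    exact_mod_cast (by norm_num : (3 : ℕ) < 5)
  · have h1 := congrArg (fun z : V × V => (z.1 : ℕ)) h
    have h2 := congrArg (fun z : V × V => (z.2 : ℕ)) h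
    have h3 : 2 * p.1.1 = 2 * q.1.1 := h1
    have h4 : 2 * p.1.2 = 2 * q.1.2 := h2
    refine Subtype.ext (Prod.ext ?_ ?_)
    · omega
    · omega

end Pool.Agent.Lib.H59L
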