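import Pool.Agent.Lib.H59L.K5

/-!
# Project H59L, chunk K7D (M): transfer to the Goldbach graphs, the frequencies
-/

open Finset

namespace Pool.Agent.Lib.H59L

open Pool.Agent.Goldbach
open Pool.Agent.Lib.H96G
open Pool.Agent.Lib.H18GB (dd)

/-- Proof. This is the second half of the proof of `main` in `Lib/H18C/Old/DistanceDistribution.lean` (the sets `A`, `F`, `Z`,
the injection `φ`, `hup`, `hlo`), with `K5_count` instead of `dd_count` and `E` (the set of the pairs with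
`edist ≠ typicalDist`) of size at most `e`: the difference is at most `e + 2 (n + 1) + 1800 n ≤ e + 1804 n`
(`finite_of_le` is in `H96G/Tr.lean`). -/
theorem K7_freq {n : ℕ} (hn : 1 ≤ n) {V S : Set ℕ} (hV : ∀ a ∈ V, Even a ∧ a ≤ 2 * n)
    (hV2 : ∀ x ∈ Finset.Icc 1 n, 2 * x ∈ V) (e : ℝ)
    (he : ({p : V × V | (halfGraph V S).edist p.1 p.2 ≠ (typicalDist p.1 p.2 : ℕ∞)}.ncard : ℝ) ≤ e)
    (i : Fin 4) :
    |({p : V × V | (halfGraph V S).edist p.1 p.2 = (((i : ℕ) + 2 : ℕ) : ℕ∞)}.ncard : ℝ) -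
      (![125, 121, 100, 104] i : ℝ) / 450 * n ^ 2| ≤ e + 1804 * n := by
  have hnr : (1 : ℝ) ≤ n := by exact_mod_cast hn
  have hfin : Finite V := Tr.finite_of_le hV
  have hty : ∀ p : V × V, typicalDist p.1 p.2 = dd ((p.1 : ℕ) / 2) ((p.2 : ℕ) / 2) := by
    rintro ⟨⟨a, ha⟩, ⟨b, hb⟩⟩
    obtain ⟨⟨x, hx⟩, -⟩ := hV a ha
    obtain ⟨⟨y, hy⟩, -⟩ := hV b hb
    have hax : a = 2 * x := by omega
    have hby : b = 2 * y := by omega
    subst hax hby
    simp only [Nat.mul_div_cancel_left _ (by norm_num : 0 < 2)]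
    exact typicalDist_two_mul x y
  set E : Set (V × V) := {p : V × V | (halfGraph V S).edist p.1 p.2 ≠
    (dd ((p.1 : ℕ) / 2) ((p.2 : ℕ) / 2) : ℕ∞)} with hE
  have hE' : {p : V × V | (halfGraph V S).edist p.1 p.2 ≠ (typicalDist p.1 p.2 : ℕ∞)} = E := by
    ext p
    rw [hE, Set.mem_ofPred_eq, Set.mem_ofPred_eq, hty p]
  rw [hE'] at he
  -- pairs of halves
  set A : Set (V × V) := {p : V × V | (halfGraph V S).edist p.1 p.2 = (((i : ℕ) + 2 : ℕ) : ℕ∞)}
    with hA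
  set F : Finset (ℕ × ℕ) := (Finset.Icc 1 n ×ˢ Finset.Icc 1 n).filter fun q =>
    dd q.1 q.2 = (i : ℕ) + 2 with hF
  set Z : Finset (ℕ × ℕ) := ({0} ×ˢ Finset.range (n + 1)) ∪ (Finset.range (n + 1) ×ˢ {0}) with hZ
  have hZc : Z.card ≤ 2 * (n + 1) := by
    refine (Finset.card_union_le _ _).trans ?_
    rw [Finset.card_product, Finset.card_product, Finset.card_range, Finset.card_singleton]
    omega
  set φ : V × V → ℕ × ℕ := fun p => ((p.1 : ℕ) / 2, (p.2 : ℕ) / 2) with hφ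
  have hinj : Function.Injective φ := by
    rintro ⟨⟨a, ha⟩, ⟨b, hb⟩⟩ ⟨⟨a', ha'⟩, ⟨b', hb'⟩⟩ hab
    obtain ⟨k1, e1⟩ := (hV a ha).1
    obtain ⟨k2, e2⟩ := (hV b hb).1
    obtain ⟨k3, e3⟩ := (hV a' ha').1
    obtain ⟨k4, e4⟩ := (hV b' hb').1
    simp only [hφ, Prod.mk.injEq] at hab
    ext
    · simp only
      omega
    · simp only
      omega
  have hrange : ∀ p : V × V, φ p ∉ Z → (φ p).1 ∈ Finset.Icc 1 n ∧ (φ p).2 ∈ Finset.Icc 1 n := by
    rintro ⟨⟨a, ha⟩, ⟨b, hb⟩⟩ hp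
    have ha2 := (hV a ha).2
    have hb2 := (hV b hb).2
    simp only [hφ, hZ, Finset.mem_union, Finset.mem_product, Finset.mem_singleton,
      Finset.mem_range, Finset.mem_Icc] at hp ⊢
    omega
  -- the upper bound
  have hup : A.ncard ≤ F.card + (E.ncard + Z.card) := by
    have h5 : φ '' A ⊆ ((F : Set (ℕ × ℕ)) ∪ (φ '' E ∪ (Z : Set (ℕ × ℕ)))) := by
      rintro q ⟨p, hp, rfl⟩
      by_cases hpE : p ∈ E
      · exact Or.inr (Or.inl ⟨p, hpE, rfl⟩)
      by_cases hpZ : φ p ∈ Z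
      · exact Or.inr (Or.inr hpZ)
      left
      rw [Finset.mem_coe, hF, Finset.mem_filter, Finset.mem_product]
      refine ⟨hrange p hpZ, ?_⟩
      rw [hE, Set.mem_ofPred_eq, not_not] at hpE
      rw [hA, Set.mem_ofPred_eq, hpE] at hp
      exact_mod_cast hp
    have h6 := Set.ncard_le_ncard h5 ((Finset.finite_toSet F).union
      (((Set.toFinite E).image φ).union (Finset.finite_toSet Z)))
    rw [Set.ncard_image_of_injective _ hinj] at h6
    refine h6.trans ((Set.ncard_union_le _ _).trans ?_)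
    rw [Set.ncard_coe_finset]
    refine Nat.add_le_add_left ((Set.ncard_union_le _ _).trans ?_) _
    rw [Set.ncard_image_of_injective _ hinj, Set.ncard_coe_finset]
  -- the lower bound
  have hlo : F.card ≤ A.ncard + E.ncard := by
    have h5 : (F : Set (ℕ × ℕ)) ⊆ φ '' (A ∪ E) := by
      rintro ⟨x, y⟩ hxy
      rw [Finset.mem_coe, hF, Finset.mem_filter, Finset.mem_product] at hxy
      refine ⟨(⟨2 * x, hV2 x hxy.1.1⟩, ⟨2 * y, hV2 y hxy.1.2⟩), ?_, by simp [hφ]⟩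
      by_cases hpE : ((⟨2 * x, hV2 x hxy.1.1⟩, ⟨2 * y, hV2 y hxy.1.2⟩) : V × V) ∈ E
      · exact Or.inr hpE
      left
      rw [hE, Set.mem_ofPred_eq, not_not] at hpE
      simp only [Nat.mul_div_cancel_left _ (by norm_num : 0 < 2)] at hpE
      rw [hA, Set.mem_ofPred_eq]
      simp only
      rw [hpE, hxy.2]
    have h6 := Set.ncard_le_ncard h5 ((Set.toFinite _).image _)
    rw [Set.ncard_coe_finset, Set.ncard_image_of_injective _ hinj] at h6
    exact h6.trans (Set.ncard_union_le _ _)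
  have hup' : (A.ncard : ℝ) ≤ F.card + (E.ncard + 2 * (n + 1)) := by
    have : A.ncard ≤ F.card + (E.ncard + 2 * (n + 1)) := by omega
    exact_mod_cast this
  have hlo' : (F.card : ℝ) ≤ A.ncard + E.ncard := by exact_mod_cast hlo
  have hFc := K5_count n hn i
  rw [abs_le] at hFc ⊢
  have hFc1 : -(1800 * (n : ℝ)) ≤ (F.card : ℝ) - (![125, 121, 100, 104] i : ℝ) / 450 * n ^ 2 := hFc.1
  have hFc2 : (F.card : ℝ) - (![125, 121, 100, 104] i : ℝ) / 450 * n ^ 2 ≤ 1800 * (n : ℝ) := hFc.2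
  constructor
  · linarith
  · linarith

end Pool.Agent.Lib.H59L
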