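import Pool.Agent.Lib.H59L.K2
import Pool.Agent.Lib.H59L.K6
import Pool.Agent.Lib.H59L.K7A
import Pool.Agent.Lib.H59L.K7B
import Pool.Agent.Lib.H59L.K7C
import Pool.Agent.Lib.H59L.K7D

/-!
# Project H59L, chunk K8 (S/M): both families
-/

open Finset

namespace Pool.Agent.Lib.H59L

open Pool.Agent.Goldbach
open Pool.Agent.Lib.H96G

/-- Proof. `K2_far` (`δ0`), `K6_close`, `K7_near` (`δ = δ0/3`), `K7_exact` (`C1`), `K7_sharp`, `K7_freq` with `e = C1 n²/log n`,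
`1804 n ≤ n²/log n` for `n` large: `C = C1 + 1`. The two families as in `H96G/Final.lean` (or in `result` of
`Lib/H18C/Old/DistanceDistribution.lean`). -/
theorem law_main (c0 c1 : ℝ) (hc0 : 0 < c0) (hc1 : 0 < c1) (n1 : ℕ)
    (h : ∀ n : ℕ, n1 ≤ n → ∃ (M : ℕ) (L : ℕ → ℤ → ℝ) (c B b : ℝ), c0 ≤ b ∧ GIn n M L c B b)
    (hff : ∀ n : ℕ, n1 ≤ n → ((ffFar n).card : ℝ) ≤ (n : ℝ) ^ (2 - c1)) :
    ∃ δ C c : ℝ, 0 < δ ∧ 0 < C ∧ 0 < c ∧ ∃ n0 : ℕ, ∀ n : ℕ, n0 ≤ n →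
      Law (goldbachGraph n) δ C c n ∧ Law (nearGoldbachGraph n) δ C c n := by
  obtain ⟨δ0, hδ0, hδ01, n2, h2⟩ := K2_far c0 c1 hc0 hc1 n1 h hff
  obtain ⟨c, hc, n3, h3⟩ := K6_close δ0 hδ0 n2 fun n hn => (h2 n hn).1
  obtain ⟨n4, h4⟩ := K7_near hδ0 hδ01
  obtain ⟨C1, hC1, n5, h5⟩ := K7_exact hδ0
  have hlog2 : ∀ᶠ x : ℝ in Filter.atTop, ‖Real.log x‖ ≤ 1 / 1804 * ‖x ^ (1 : ℝ)‖ :=
    (isLittleO_log_rpow_atTop one_pos).def (by norm_num)
  obtain ⟨x1, hx1⟩ := Filter.eventually_atTop.1 hlog2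
  obtain ⟨n6, hn6⟩ := exists_nat_ge x1
  have key : ∀ n : ℕ, max (max (max n2 n3) (max n4 n5)) (max n6 3) ≤ n → ∀ V S : Set ℕ,
      (∀ a ∈ V, Even a ∧ a ≤ 2 * n) → (∀ x ∈ Finset.Icc 1 n, 2 * x ∈ V) →
      (∀ m, m.Prime → Odd m → m < 2 * n → m ∈ S) → (∀ m ∈ S, m = 1 ∨ (m.Prime ∧ Odd m)) →
      Law (halfGraph V S) (δ0 / 3) (C1 + 1) c n := by
    intro n hn V S hV hV2 hS hS'
    have g2 : n2 ≤ n := (((le_max_left _ _).trans (le_max_left _ _)).trans (le_max_left _ _)).trans hn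
    have g3 : n3 ≤ n := (((le_max_right _ _).trans (le_max_left _ _)).trans (le_max_left _ _)).trans hn
    have g4 : n4 ≤ n := (((le_max_left _ _).trans (le_max_right _ _)).trans (le_max_left _ _)).trans hn
    have g5 : n5 ≤ n := (((le_max_right _ _).trans (le_max_right _ _)).trans (le_max_left _ _)).trans hn
    have g6 : n6 ≤ n := ((le_max_left _ _).trans (le_max_right _ _)).trans hn
    have g7 : 3 ≤ n := ((le_max_right _ _).trans (le_max_right _ _)).trans hn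
    have hnr : (3 : ℝ) ≤ n := by exact_mod_cast g7
    have hn0 : (0 : ℝ) < n := by linarith
    have hL : 0 < Real.log n := Real.log_pos (by linarith)
    have a2 := hx1 n (hn6.trans (by exact_mod_cast g6))
    rw [Real.norm_eq_abs, abs_of_pos hL, Real.rpow_one, Real.norm_eq_abs, abs_of_pos hn0] at a2
    have hfar := (h2 n g2).2
    have b2 : 1804 * (n : ℝ) ≤ n ^ 2 / Real.log n := by
      rw [le_div_iff₀ hL]
      calc 1804 * (n : ℝ) * Real.log n ≤ 1804 * n * (1 / 1804 * n) :=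
            mul_le_mul_of_nonneg_left a2 (by positivity)
        _ = (n : ℝ) ^ 2 := by ring
    have hpos : 0 ≤ (n : ℝ) ^ 2 / Real.log n := by positivity
    have e5 := h5 n g5 hfar V S hV hV2 hS hS'
    have e1 : (C1 + 1) * (n : ℝ) ^ 2 / Real.log n = C1 * n ^ 2 / Real.log n + n ^ 2 / Real.log n := by ring
    refine ⟨h4 n g4 hfar V S hV hV2 hS, ?_, ?_, ?_⟩
    · rw [e1]
      linarith
    · refine (h3 n g3).trans ?_
      exact_mod_cast K7_sharp hV hV2 hS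
    · intro i
      refine (K7_freq (by omega) hV hV2 _ e5 i).trans ?_
      rw [e1]
      linarith
  refine ⟨δ0 / 3, C1 + 1, c, by positivity, by positivity, hc, max (max (max n2 n3) (max n4 n5)) (max n6 3),
    fun n hn => ⟨?_, ?_⟩⟩
  · exact key n hn (goldbachVertices n) {p | p.Prime ∧ Odd p ∧ p < 2 * n} (fun a ha => ha)
      (fun x hx => by
        rw [Finset.mem_Icc] at hx
        exact ⟨even_two_mul x, by omega⟩)
      (fun m h1 h2 h3 => ⟨h1, h2, h3⟩)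
      (fun m hm => Or.inr ⟨hm.1, hm.2.1⟩)
  · exact key n hn (evenVertices n) ({1} ∪ {p | p.Prime ∧ Odd p ∧ p < 2 * n})
      (fun a ha => ⟨ha.1, ha.2.2⟩)
      (fun x hx => by
        rw [Finset.mem_Icc] at hx
        exact ⟨even_two_mul x, by omega, by omega⟩)
      (fun m h1 h2 h3 => Or.inr ⟨h1, h2, h3⟩)
      (fun m hm => by
        rcases hm with hm | hm
        · exact Or.inl hm
        · exact Or.inr ⟨hm.1, hm.2.1⟩)

end Pool.Agent.Lib.H59L
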